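import Mathlib
import Pool.Agent.H7.Nest

set_option autoImplicit false

namespace Pool.Agent.Results.MP_64e20d_co.NotNeST

open Metric

/-- No induced cycle of length at least 4. -/
def Chordal {V : Type} (G : SimpleGraph V) : Prop :=
  ∀ k : ℕ, 4 ≤ k → IsEmpty (SimpleGraph.cycleGraph k ↪g G)

/-- An induced `(k+3)`-sun: a clique `u`, a stable set `w`, and `w j` adjacent exactly to
`u j` and `u (j+1)` (indices cyclic). -/
def HasSun {V : Type} (G : SimpleGraph V) : Prop :=
  ∃ (k : ℕ) (u w : Fin (k + 3) → V), Function.Injective (Sum.elim u w) ∧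
    (∀ i j, i ≠ j → G.Adj (u i) (u j)) ∧ (∀ i j, ¬ G.Adj (w i) (w j)) ∧
    ∀ i j, G.Adj (u i) (w j) ↔ i = j ∨ i = j + 1

/-- Chordal and sun-free. -/
def StronglyChordal {V : Type} (G : SimpleGraph V) : Prop := Chordal G ∧ ¬ HasSun G

/-- A real tree: geodesic, with the four-point condition. Every embedded tree with its path
metric is a compact real tree. -/
def IsRealTree (T : Type) [MetricSpace T] : Prop :=
  (∀ (p q : T) (s : ℝ), 0 ≤ s → s ≤ dist p q → ∃ z, dist p z = s ∧ dist z q = dist p q - s) ∧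
  ∀ a b c d : T, dist a b + dist c d ≤ max (dist a c + dist b d) (dist a d + dist b c)

/-- NeST graph, the size of a subtree being its actual diameter. -/
def NeSTDiam {V : Type} (G : SimpleGraph V) : Prop :=
  ∃ (T : Type) (_ : MetricSpace T) (_ : CompactSpace T) (c : V → T) (r t : V → ℝ),
    IsRealTree T ∧ (∀ v, 0 < r v ∧ 0 < t v) ∧ ∀ x y, x ≠ y → (G.Adj x y ↔
      (closedBall (c x) (r x) ∩ closedBall (c y) (r y)).Nonempty ∧
      min (t x) (t y) ≤ diam (closedBall (c x) (r x) ∩ closedBall (c y) (r y)))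

/-- NeST graph with the nominal size convention `‖T(c,r)‖ = 2r`, under which a nonempty
`T(c,r) ∩ T(c',r')` has size `min (2r, 2r', r + r' - d(c,c'))`. -/
def NeSTNominal {V : Type} (G : SimpleGraph V) : Prop :=
  ∃ (T : Type) (_ : MetricSpace T) (c : V → T) (r t : V → ℝ),
    IsRealTree T ∧ (∀ v, 0 < r v ∧ 0 < t v) ∧ ∀ x y, x ≠ y → (G.Adj x y ↔
      (closedBall (c x) (r x) ∩ closedBall (c y) (r y)).Nonempty ∧
      min (t x) (t y) ≤ min (min (2 * r x) (2 * r y)) (r x + r y - dist (c x) (c y)))

open Pool.Agent.H7.Nest in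
theorem result : ∃ (V : Type) (_ : Fintype V) (G : SimpleGraph V),
    StronglyChordal G ∧ ¬ NeSTDiam G ∧ ¬ NeSTNominal G := by
  let R : (N : ℕ) → (Fin N → Fin N → Bool) → Fin N ⊕ Fin N → Fin N ⊕ Fin N → Prop :=
    fun N M a b => match a, b with
      | Sum.inl x, Sum.inl y => x ≠ y
      | Sum.inl x, Sum.inr y => M x y = true
      | Sum.inr y, Sum.inl x => M x y = true
      | Sum.inr _, Sum.inr _ => False
  obtain ⟨N, M, hM, hF⟩ := exists_gf R (fun _ _ _ _ => Iff.rfl)
  let G : SimpleGraph (Fin N ⊕ Fin N) :=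
    { Adj := R N M
      symm := ⟨by
        rintro (a | a) (b | b) h
        · exact Ne.symm h
        · exact h
        · exact h
        · exact h⟩
      loopless := ⟨by
        rintro (a | a) h
        · exact h rfl
        · exact h⟩ }
  have hl : ∀ a b, a ≠ b → ¬ G.Adj a b → a.isRight = true ∨ b.isRight = true := by
    rintro (a | a) (b | b) h1 h2
    · exact absurd (fun e => h1 (congrArg Sum.inl e)) h2
    all_goals simp
  have hr : ∀ a b, G.Adj a b → a.isRight = true → b.isRight = true → False := by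
    rintro (a | a) (b | b) h1 h2 h3
    · simp at h2
    · simp at h2
    · simp at h3
    · exact h1
  refine ⟨Fin N ⊕ Fin N, inferInstance, G, ⟨fun k hk => ⟨fun f => ?_⟩, ?_⟩, ?_, ?_⟩
  · obtain ⟨k, rfl⟩ : ∃ j, k = j + 4 := ⟨k - 4, by omega⟩
    have adj : ∀ i j : Fin (k + 4), G.Adj (f i) (f j) ↔ (i - j).val = 1 ∨ (j - i).val = 1 :=
      fun i j => by rw [f.map_adj_iff, SimpleGraph.cycleGraph_adj']
    have a1 : ∀ i : Fin (k + 4), G.Adj (f i) (f (i + 1)) := fun i => by
      rw [adj]
      right
      simp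
    have e2 : ((1 + 1 : Fin (k + 4)) : ℕ) = 2 := by simp [Fin.val_add, Nat.mod_eq_of_lt]
    have a2 : ∀ i : Fin (k + 4), (f i).isRight = true ∨ (f (i + 1 + 1)).isRight = true := by
      intro i
      refine hl _ _ (fun e => ?_) ?_
      · have := f.injective e
        rw [add_assoc, left_eq_add] at this
        rw [this] at e2
        simp at e2
      · rw [adj, add_assoc, add_sub_cancel_left, sub_add_cancel_left, e2, Fin.val_neg', e2]
        rw [Nat.mod_eq_of_lt (by omega)]
        omega
    have key : ∀ i : Fin (k + 4), (f (i + 1)).isRight = true → False := by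
      intro i h
      rcases a2 i with m | m
      · exact hr _ _ (a1 i) m h
      · exact hr _ _ (a1 (i + 1)) h m
    rcases a2 1 with m | m
    · exact key 0 (by simpa using m)
    · exact key _ m
  · rintro ⟨k, u, w, hi, -, hw, h⟩
    have n1 : ∀ j : Fin (k + 3), j ≠ j + 1 := fun j e => by simp at e
    have hu : ∀ i, ∃ x, u i = Sum.inl x := by
      intro i
      obtain ⟨j, rfl⟩ : ∃ j, i = j + 1 := ⟨i - 1, by simp⟩
      rcases hx : u (j + 1) with x | x
      · exact ⟨x, rfl⟩
      · exfalso
        have r : (u (j + 1)).isRight = true := by rw [hx]; rfl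
        rcases hl (w j) (w (j + 1)) (fun e => n1 j (Sum.inr.inj
          (hi (a₁ := Sum.inr j) (a₂ := Sum.inr (j + 1)) e))) (hw _ _) with m | m
        · exact hr _ _ ((h _ _).2 (Or.inr rfl)) r m
        · exact hr _ _ ((h _ _).2 (Or.inl rfl)) r m
    choose x hx using hu
    have hw' : ∀ j, ∃ y, w j = Sum.inr y := by
      intro j
      have n : ¬ G.Adj (u (j + 1 + 1)) (w j) := by
        rw [h]
        rintro (e | e)
        · rw [add_assoc, add_eq_left] at e
          have := congrArg Fin.val e
          simp [Fin.val_add, Nat.mod_eq_of_lt] at this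
        · exact n1 _ e.symm
      rcases hl (u (j + 1 + 1)) (w j)
        (fun e => absurd (hi (a₁ := Sum.inl _) (a₂ := Sum.inr _) e) (by simp)) n with m | m
      · rw [hx] at m
        simp at m
      · exact Sum.isRight_iff.1 m
    choose y hy using hw'
    refine gf_cycle hM x y fun i j => ?_
    rw [← h, hx, hy]
  · rintro ⟨T, _, _, c, r, t, ⟨geo, four⟩, hp, h⟩
    choose e p q s h1 h2 h3 h4 using fun v => recenter geo four (c v) (r v) (hp v).1.le
    refine hF (form_of four _ e s t fun x y hxy => (h x y hxy).trans ?_)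
    rw [h1, h1]
    exact diam_iff geo four _ _ _ _ _ _ _ _ _ (lt_min (hp x).2 (hp y).2) (h2 x) (h3 x) (h4 x)
      (h2 y) (h3 y) (h4 y)
  · rintro ⟨T, _, c, r, t, ⟨geo, four⟩, hp, h⟩
    refine hF (form_of four _ c r t fun x y hxy => (h x y hxy).trans (and_iff_right_of_imp ?_))
    intro m
    have m1 := (lt_min (hp x).2 (hp y).2).trans_le (m.trans (min_le_right _ _))
    obtain ⟨z, z1, z2⟩ := geo (c x) (c y) (min (r x) (dist (c x) (c y)))
      (le_min (hp x).1.le dist_nonneg) (min_le_right _ _)
    refine ⟨z, ?_, ?_⟩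
    · rw [mem_closedBall, dist_comm, z1]
      exact min_le_left _ _
    · rw [mem_closedBall, z2]
      rcases min_cases (r x) (dist (c x) (c y)) with n | n <;> linarith [n.1, (hp y).1]

end Pool.Agent.Results.MP_64e20d_co.NotNeST
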